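import Mathlib

set_option autoImplicit false

namespace Pool.Agent.Helper520

open Set Topology Filter TopologicalSpace

/-- Lavrentiev type extension lemma: if `e` embeds `α` into a metric space `P` and `f` embeds
`α` into a complete metric space `Q`, then `f` transported by `e` extends to an embedding of a
G-delta subset of `P` into `Q`. -/
theorem lavrentiev {α P Q : Type} [TopologicalSpace α] [MetricSpace P] [MetricSpace Q]
    [CompleteSpace Q] {e : α → P} {f : α → Q} (he : IsInducing e) (hf : IsInducing f) :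
    ∃ G : Set P, IsGδ G ∧ ∃ hG : (∀ a, e a ∈ G), ∃ g : ↥G → Q, IsEmbedding g ∧
      ∀ a, g ⟨e a, hG a⟩ = f a := by
  let good : ℕ → Set P → Prop := fun n U => IsOpen U ∧
    (∀ a b, e a ∈ U → e b ∈ U → dist (f a) (f b) < 1 / ((n : ℝ) + 1)) ∧
    ∃ V : Set Q, IsOpen V ∧ closure (f '' (e ⁻¹' U)) ⊆ V ∧
      ∀ a b, f a ∈ V → f b ∈ V → dist (e a) (e b) < 1 / ((n : ℝ) + 1)
  let O : ℕ → Set P := fun n => ⋃₀ {U | good n U}
  have hO : ∀ n, IsOpen (O n) := fun n => isOpen_sUnion fun U hU => hU.1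
  let G : Set P := closure (range e) ∩ ⋂ n, O n
  have hGd : IsGδ G := isClosed_closure.isGδ.inter (IsGδ.iInter_of_isOpen hO)
  have hG : ∀ a, e a ∈ G := by
    intro a
    refine ⟨subset_closure ⟨a, rfl⟩, mem_iInter.2 fun n => ?_⟩
    have hδ : (0 : ℝ) < 1 / ((n : ℝ) + 1) := Nat.one_div_pos_of_nat
    have h1 : {b | dist (e b) (e a) < (1 / ((n : ℝ) + 1)) / 2} ∈ 𝓝 a := by
      have : e ⁻¹' Metric.ball (e a) ((1 / ((n : ℝ) + 1)) / 2) ∈ 𝓝 a :=
        he.continuous.continuousAt.preimage_mem_nhds (Metric.ball_mem_nhds _ (half_pos hδ))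
      exact this
    rw [hf.nhds_eq_comap] at h1
    obtain ⟨V0, hV0, hV0s⟩ := h1
    obtain ⟨r, hr, hrV⟩ := Metric.mem_nhds_iff.1 hV0
    have h2 : {b | dist (f b) (f a) < min (r / 2) ((1 / ((n : ℝ) + 1)) / 2)} ∈ 𝓝 a := by
      have : f ⁻¹' Metric.ball (f a) (min (r / 2) ((1 / ((n : ℝ) + 1)) / 2)) ∈ 𝓝 a :=
        hf.continuous.continuousAt.preimage_mem_nhds
          (Metric.ball_mem_nhds _ (lt_min (half_pos hr) (half_pos hδ)))
      exact this
    rw [he.nhds_eq_comap] at h2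
    obtain ⟨U0, hU0, hU0s⟩ := h2
    obtain ⟨s, hs, hsU⟩ := Metric.mem_nhds_iff.1 hU0
    refine mem_sUnion.2 ⟨Metric.ball (e a) s, ⟨Metric.isOpen_ball, ?_, Metric.ball (f a) r,
      Metric.isOpen_ball, ?_, ?_⟩, Metric.mem_ball_self hs⟩
    · intro b c hb hc
      have hb' : dist (f b) (f a) < min (r / 2) ((1 / ((n : ℝ) + 1)) / 2) := hU0s (hsU hb)
      have hc' : dist (f c) (f a) < min (r / 2) ((1 / ((n : ℝ) + 1)) / 2) := hU0s (hsU hc)
      have := dist_triangle_right (f b) (f c) (f a)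
      have h3 := lt_of_lt_of_le hb' (min_le_right _ _)
      have h4 := lt_of_lt_of_le hc' (min_le_right _ _)
      linarith
    · have hsub : f '' (e ⁻¹' Metric.ball (e a) s) ⊆ Metric.closedBall (f a) (r / 2) := by
        rintro _ ⟨b, hb, rfl⟩
        have hb' : dist (f b) (f a) < min (r / 2) ((1 / ((n : ℝ) + 1)) / 2) := hU0s (hsU hb)
        exact (lt_of_lt_of_le hb' (min_le_left _ _)).le
      refine (closure_minimal hsub Metric.isClosed_closedBall).trans ?_
      exact Metric.closedBall_subset_ball (by linarith)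
    · intro b c hb hc
      have hb' : dist (e b) (e a) < (1 / ((n : ℝ) + 1)) / 2 := hV0s (hrV hb)
      have hc' : dist (e c) (e a) < (1 / ((n : ℝ) + 1)) / 2 := hV0s (hrV hc)
      have := dist_triangle_right (e b) (e c) (e a)
      linarith
  -- the filter of approximations
  have hne : ∀ p : ↥G, (comap e (𝓝 (p : P))).NeBot := by
    intro p
    rw [comap_neBot_iff]
    intro t ht
    obtain ⟨y, hy, a, rfl⟩ := mem_closure_iff_nhds.1 p.2.1 t ht
    exact ⟨a, hy⟩
  have hgood : ∀ (p : ↥G) (n : ℕ), ∃ U, good n U ∧ (p : P) ∈ U := by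
    intro p n
    obtain ⟨U, hU, hpU⟩ := mem_sUnion.1 (mem_iInter.1 p.2.2 n)
    exact ⟨U, hU, hpU⟩
  have hlim : ∀ p : ↥G, ∃ q, Tendsto f (comap e (𝓝 (p : P))) (𝓝 q) := by
    intro p
    have := hne p
    have hc : Cauchy (map f (comap e (𝓝 (p : P)))) := by
      rw [Metric.cauchy_iff]
      refine ⟨map_neBot, fun ε hε => ?_⟩
      obtain ⟨n, hn⟩ := exists_nat_one_div_lt hε
      obtain ⟨U, hU, hpU⟩ := hgood p n
      refine ⟨f '' (e ⁻¹' U), image_mem_map (preimage_mem_comap (hU.1.mem_nhds hpU)), ?_⟩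
      rintro _ ⟨a, ha, rfl⟩ _ ⟨b, hb, rfl⟩
      exact (hU.2.1 a b ha hb).trans hn
    exact CompleteSpace.complete hc
  choose g hg using hlim
  have approx : ∀ (p : ↥G) (W : Set P) (V : Set Q), W ∈ 𝓝 (p : P) → V ∈ 𝓝 (g p) →
      ∃ a, e a ∈ W ∧ f a ∈ V := by
    intro p W V hW hV
    have := hne p
    have h1 : ∀ᶠ a in comap e (𝓝 (p : P)), f a ∈ V := hg p hV
    have h2 : ∀ᶠ a in comap e (𝓝 (p : P)), e a ∈ W := preimage_mem_comap hW
    obtain ⟨a, ha1, ha2⟩ := (h1.and h2).exists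
    exact ⟨a, ha2, ha1⟩
  have hind : IsInducing g := by
    rw [isInducing_iff_nhds]
    intro p
    apply le_antisymm
    · rw [← map_le_iff_le_comap]
      change Tendsto g (𝓝 p) (𝓝 (g p))
      rw [Metric.tendsto_nhds]
      intro ε hε
      obtain ⟨n, hn⟩ := exists_nat_one_div_lt (half_pos hε)
      obtain ⟨U, hU, hpU⟩ := hgood p n
      have : Subtype.val ⁻¹' U ∈ 𝓝 p :=
        continuous_subtype_val.continuousAt.preimage_mem_nhds (hU.1.mem_nhds hpU)
      filter_upwards [this] with p' hp'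
      obtain ⟨a, ha1, ha2⟩ := approx p U (Metric.ball (g p) (ε / 4)) (hU.1.mem_nhds hpU)
        (Metric.ball_mem_nhds _ (by linarith))
      obtain ⟨b, hb1, hb2⟩ := approx p' U (Metric.ball (g p') (ε / 4)) (hU.1.mem_nhds hp')
        (Metric.ball_mem_nhds _ (by linarith))
      have h1 := hU.2.1 a b ha1 hb1
      rw [Metric.mem_ball] at ha2 hb2
      have h2 := dist_triangle4 (g p') (f b) (f a) (g p)
      rw [dist_comm (g p') (f b), dist_comm (f b) (f a)] at h2
      linarith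
    · intro S hS
      obtain ⟨ε, hε, hεS⟩ := Metric.mem_nhds_iff.1 hS
      obtain ⟨n, hn⟩ := exists_nat_one_div_lt (half_pos hε)
      obtain ⟨U, hU, hpU⟩ := hgood p n
      obtain ⟨hUo, hU1, V, hVo, hcl, hV⟩ := hU
      have hgpV : g p ∈ V := by
        apply hcl
        rw [Metric.mem_closure_iff]
        intro η hη
        obtain ⟨a, ha1, ha2⟩ := approx p U (Metric.ball (g p) η) (hUo.mem_nhds hpU)
          (Metric.ball_mem_nhds _ hη)
        refine ⟨f a, ⟨a, ha1, rfl⟩, ?_⟩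
        rw [dist_comm]; exact ha2
      refine ⟨V, hVo.mem_nhds hgpV, ?_⟩
      intro p' hp'
      apply hεS
      rw [Metric.mem_ball, Subtype.dist_eq]
      obtain ⟨a, ha1, ha2⟩ := approx p (Metric.ball p (ε / 4)) V
        (Metric.ball_mem_nhds _ (by linarith)) (hVo.mem_nhds hgpV)
      obtain ⟨b, hb1, hb2⟩ := approx p' (Metric.ball p' (ε / 4)) V
        (Metric.ball_mem_nhds _ (by linarith)) (hVo.mem_nhds hp')
      have h1 := hV a b ha2 hb2
      rw [Metric.mem_ball] at ha1 hb1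
      have h2 := dist_triangle4 (p' : P) (e b) (e a) (p : P)
      rw [dist_comm (p' : P) (e b), dist_comm (e b) (e a)] at h2
      linarith
  refine ⟨G, hGd, hG, g, hind.isEmbedding, ?_⟩
  intro a
  have := hne ⟨e a, hG a⟩
  have h1 : Tendsto f (comap e (𝓝 (e a))) (𝓝 (f a)) := by
    rw [← he.nhds_eq_comap]
    exact hf.continuous.continuousAt
  exact tendsto_nhds_unique (hg ⟨e a, hG a⟩) h1

end Pool.Agent.Helper520
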