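import Pool.Agent.Helper520.Decomp
import Pool.Agent.Helper520.Lavrentiev

set_option autoImplicit false

namespace Pool.Agent.Helper520

open Set Topology Filter TopologicalSpace

variable {ind : ℕ → (α : Type) → [TopologicalSpace α] → Prop}

/-- The new direction. If the Polish space `Y` contains a copy of `X` whose remainder `Z` is
covered by the zero-dimensional sets `E 0, ..., E n`, choose for every colour `c` a countable base
of `Y` whose boundaries `S c k` miss `E c`. Removing from `Y` the F-sigma set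
`⋃ k, S c k \ C c k`, where `C c k` is the intersection over the other colours `d` of the union of
the boundaries `S d j` with `(j, d) < (k, c)` in the lexicographic order, gives a G-delta set
`G c` which meets `Z` in a zero-dimensional set, and the sets `G c` cover `Y`. -/
theorem icd_forward (hind : IndRec ind) (X : Type) [TopologicalSpace X] (n : ℕ)
    (Y : Type) [TopologicalSpace Y] [PolishSpace Y] (f : X → Y) (hf : IsEmbedding f)
    (hZ : ind (n + 1) ↥(range f)ᶜ) :
    ∃ A : Fin (n + 1) → Set X, (⋃ i, A i) = Set.univ ∧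
      ∀ i, ∃ (Y : Type) (_ : TopologicalSpace Y), PolishSpace Y ∧
        ∃ f : ↥(A i) → Y, IsEmbedding f ∧ ind 1 ↥(range f)ᶜ := by
  obtain ⟨E0, hE01, hE02⟩ := decomp hind (n + 1) ↥(range f)ᶜ hZ
  let E : Fin (n + 1) → Set Y := fun c => Subtype.val '' (E0 c)
  have hEcov : ∀ y, y ∉ range f → ∃ c, y ∈ E c := by
    intro y hy
    obtain ⟨c, hc⟩ := hE01 ⟨y, hy⟩
    exact ⟨c, ⟨y, hy⟩, hc, rfl⟩
  have hEzd : ∀ c, ZD ↥(E c) := by
    intro c
    refine (hE02 c).of_range (γ := Y) (g := fun x => ((x : ↥(range f)ᶜ) : Y))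
      (f := fun x => (x : Y)) (IsInducing.subtypeVal.comp IsInducing.subtypeVal)
      IsInducing.subtypeVal ?_
    rintro ⟨_, ⟨y, hy, rfl⟩⟩
    exact ⟨⟨y, hy⟩, rfl⟩
  have hbase : ∀ c, ∃ V : ℕ → Set Y, IsTopologicalBasis (range V) ∧
      ∀ k, Disjoint (frontier (V k)) (E c) := fun c => exists_basis_missing (hEzd c)
  choose V hVb hVE using hbase
  let S : Fin (n + 1) → ℕ → Set Y := fun c k => frontier (V c k)
  have hSc : ∀ c k, IsClosed (S c k) := fun c k => isClosed_frontier
  -- the closed correction sets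
  let C : Fin (n + 1) → ℕ → Set Y := fun c k =>
    ⋂ d : {d : Fin (n + 1) // d ≠ c}, ⋃ j ∈ {j : ℕ | j ≤ k ∧ (j < k ∨ d.1 < c)}, S d.1 j
  have hCc : ∀ c k, IsClosed (C c k) := by
    intro c k
    refine isClosed_iInter fun d => ?_
    refine Set.Finite.isClosed_biUnion ((finite_Iic k).subset fun j hj => hj.1) ?_
    exact fun j _ => hSc _ _
  let G : Fin (n + 1) → Set Y := fun c => ⋂ k, ((S c k)ᶜ ∪ C c k)
  have hGd : ∀ c, IsGδ (G c) := by
    intro c
    let _ := upgradeIsCompletelyMetrizable Y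
    refine IsGδ.iInter fun k => ?_
    exact (hSc c k).isOpen_compl.isGδ.union (hCc c k).isGδ
  -- the sets `G c` cover `Y`
  have hGcov : ∀ y, ∃ c, y ∈ G c := by
    intro y
    by_contra hcon
    push Not at hcon
    have h1 : ∀ c, ∃ k, y ∈ S c k ∧ y ∉ C c k := by
      intro c
      have := hcon c
      simp only [G, mem_iInter, mem_union, mem_compl_iff, not_forall, not_or, not_not] at this
      exact this
    choose k hk1 hk2 using h1
    obtain ⟨c, hc⟩ := Finite.exists_max (fun c => toLex (k c, c))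
    apply hk2 c
    refine mem_iInter.2 fun d => ?_
    have hle := hc d.1
    rw [Prod.Lex.toLex_le_toLex] at hle
    simp only at hle
    refine mem_biUnion (x := k d.1) ?_ (hk1 d.1)
    rcases hle with h | ⟨h, h'⟩
    · exact ⟨h.le, Or.inl h⟩
    · exact ⟨h.le, Or.inr (lt_of_le_of_ne h' d.2)⟩
  -- the sets `G c` meet the remainder in zero-dimensional sets
  have hGzd : ∀ c, ZD ↥((range f)ᶜ ∩ G c) := by
    intro c
    refine zd_of_basis (hVb c) ?_
    rintro _ ⟨k, rfl⟩
    rw [Set.disjoint_left]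
    rintro y hyS ⟨hyf, hyG⟩
    obtain ⟨d, hd⟩ := hEcov y hyf
    have hyC : y ∈ C c k := by
      rcases mem_iInter.1 hyG k with h | h
      · exact (h hyS).elim
      · exact h
    by_cases hdc : d = c
    · subst hdc
      exact Set.disjoint_left.1 (hVE d k) hyS hd
    · have := mem_iInter.1 hyC ⟨d, hdc⟩
      simp only [mem_iUnion] at this
      obtain ⟨j, _, hj⟩ := this
      exact Set.disjoint_left.1 (hVE d j) hj hd
  refine ⟨fun c => f ⁻¹' (G c), ?_, ?_⟩
  · ext x
    simp only [mem_iUnion, mem_preimage, mem_univ, iff_true]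
    exact hGcov (f x)
  · intro c
    refine ⟨↥(G c), inferInstance, polish_of_isGdelta (hGd c), fun x => ⟨f x.1, x.2⟩, ?_, ?_⟩
    · have h1 : IsEmbedding (fun x : ↥(f ⁻¹' (G c)) => f x.1) := hf.comp IsEmbedding.subtypeVal
      exact IsEmbedding.of_comp (Continuous.subtype_mk h1.continuous _) continuous_subtype_val h1
    · rw [ind_one_iff hind]
      refine (hGzd c).of_range (γ := Y) (g := fun x => (x : Y))
        (f := fun x => ((x : ↥(G c)) : Y)) IsInducing.subtypeVal
        (IsInducing.subtypeVal.comp IsInducing.subtypeVal) ?_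
      rintro ⟨⟨y, hyG⟩, hy⟩
      refine ⟨⟨y, ?_, hyG⟩, rfl⟩
      rintro ⟨x, rfl⟩
      exact hy ⟨⟨x, hyG⟩, rfl⟩

/-- the addition theorem for the completeness deficiency -/
theorem icd_backward (hind : IndRec ind) (X : Type) [TopologicalSpace X] [SeparableSpace X]
    [MetrizableSpace X] (n : ℕ) (A : Fin (n + 1) → Set X) (hA : (⋃ i, A i) = Set.univ)
    (h : ∀ i, ∃ (Y : Type) (_ : TopologicalSpace Y), PolishSpace Y ∧
        ∃ f : ↥(A i) → Y, IsEmbedding f ∧ ind 1 ↥(range f)ᶜ) :
    ∃ (Y : Type) (_ : TopologicalSpace Y), PolishSpace Y ∧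
      ∃ f : X → Y, IsEmbedding f ∧ ind (n + 1) ↥(range f)ᶜ := by
  let _ := metrizableSpaceMetric X
  let P : Type := UniformSpace.Completion X
  let ι : X → P := fun x => (x : UniformSpace.Completion X)
  have hι : IsEmbedding ι := UniformSpace.Completion.isUniformEmbedding_coe X |>.isEmbedding
  have key : ∀ i, ∃ G : Set P, IsGδ G ∧ (∀ x ∈ A i, ι x ∈ G) ∧ ZD ↥{y : P | y ∈ G ∧ y ∉ range ι} := by
    intro i
    obtain ⟨Y, tY, hY, f, hf, hfi⟩ := h i
    let _ := upgradeIsCompletelyMetrizable Y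
    obtain ⟨G, hGd, hG, g, hg, hgf⟩ := lavrentiev (e := fun x : ↥(A i) => ι x.1) (f := f)
      (hι.isInducing.comp IsInducing.subtypeVal) hf.isInducing
    refine ⟨G, hGd, fun x hx => hG ⟨x, hx⟩, ?_⟩
    rw [ind_one_iff hind] at hfi
    refine hfi.of_range (γ := Y) (g := fun y => (y : Y))
      (f := fun y => g ⟨y.1, y.2.1⟩) IsInducing.subtypeVal ?_ ?_
    · have h1 : IsInducing (fun y : ↥{y : P | y ∈ G ∧ y ∉ range ι} => (⟨y.1, y.2.1⟩ : ↥G)) := by
        refine IsInducing.of_comp (Continuous.subtype_mk continuous_subtype_val _)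
          continuous_subtype_val ?_
        exact IsInducing.subtypeVal
      exact hg.isInducing.comp h1
    · rintro ⟨y, hyG, hyι⟩
      refine ⟨⟨g ⟨y, hyG⟩, ?_⟩, rfl⟩
      rintro ⟨a, ha⟩
      rw [← hgf a] at ha
      have := congrArg Subtype.val (hg.injective ha)
      exact hyι ⟨a.1, this⟩
  choose G hGd hAG hGzd using key
  have hGU : IsGδ (⋃ i, G i) := IsGδ.iUnion hGd
  have hcov : ∀ x, ι x ∈ ⋃ i, G i := by
    intro x
    have : x ∈ ⋃ i, A i := by rw [hA]; trivial
    obtain ⟨i, hi⟩ := mem_iUnion.1 this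
    exact mem_iUnion.2 ⟨i, hAG i x hi⟩
  refine ⟨↥(⋃ i, G i), inferInstance, polish_of_isGdelta hGU, fun x => ⟨ι x, hcov x⟩, ?_, ?_⟩
  · exact IsEmbedding.of_comp (Continuous.subtype_mk hι.continuous _) continuous_subtype_val hι
  · refine ind_of_cover hind (n + 1) _ (fun i => {y | y.1.1 ∈ G i}) ?_ ?_
    · rintro ⟨⟨y, hy⟩, _⟩
      obtain ⟨i, hi⟩ := mem_iUnion.1 hy
      exact ⟨i, hi⟩
    · intro i
      refine (hGzd i).of_range (γ := P) (g := fun y => (y : P))
        (f := fun y => y.1.1.1) IsInducing.subtypeVal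
        (IsInducing.subtypeVal.comp (IsInducing.subtypeVal.comp IsInducing.subtypeVal)) ?_
      rintro ⟨⟨⟨y, hyG⟩, hy⟩, hyi⟩
      refine ⟨⟨y, hyi, ?_⟩, rfl⟩
      rintro ⟨x, rfl⟩
      exact hy ⟨x, rfl⟩

end Pool.Agent.Helper520
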